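import Pool.Agent.R852.TP.Pow
import Pool.Agent.Y230.TL.Main
import Pool.Agent.Y475.TL.L

set_option autoImplicit false
set_option linter.unusedSectionVars false
set_option linter.unusedVariables false

/-! # Local functional equations: multiplicities, powers, reduced forced roots at `-1` -/

namespace Pool.Agent.R852.TL

open MvPolynomial Pool.Agent.W574.SM Pool.Agent.W574.HS Pool.Agent.W574.RO Pool.Agent.Y229
open Pool.Agent.W574.LM
open Pool.Agent.H628R4.TP (IsBFunction weylS)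
open Pool.Agent.R852.PP Pool.Agent.R852.TP
open Pool.Agent.Y230.TL (RE RF locEq_single)

/-- `(s - z) ^ n` divides the local functional equations at the origin -/
def LM {σ ι : Type} [Fintype ι] (f : ι → MvPolynomial σ ℂ) (z : ℂ) (n : ℕ) : Prop :=
  ∀ (H : MvPolynomial σ ℂ) (b : Polynomial ℂ), IsLocEq H f b → eval 0 H ≠ 0 →
    (Polynomial.X - Polynomial.C z) ^ n ∣ b

theorem LM.mono {σ ι : Type} [Fintype ι] {f : ι → MvPolynomial σ ℂ} {z : ℂ} {n m : ℕ}
    (h : LM f z n) (hm : m ≤ n) : LM f z m :=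
  fun H b hb hH => dvd_trans (pow_dvd_pow _ hm) (h H b hb hH)

theorem lm_zero {σ ι : Type} [Fintype ι] (f : ι → MvPolynomial σ ℂ) (z : ℂ) : LM f z 0 :=
  fun H b hb hH => by rw [pow_zero]; exact one_dvd _

theorem lm_of_sf {σ ι : Type} [Fintype ι] [DecidableEq ι] (f : ι → MvPolynomial σ ℂ) (z : ℂ)
    (h : SF f 0 z) : LM f z 1 := by
  intro H b hb hH
  rw [pow_one, Polynomial.dvd_iff_isRoot]
  exact h.locEq H b hb hH

theorem sf_of_lm {σ ι : Type} [Finite σ] [Fintype ι] [DecidableEq ι] (f : ι → MvPolynomial σ ℂ)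
    (hf : ∃ j, f j ≠ 0) (z : ℂ) (n : ℕ) (hn : 1 ≤ n) (h : LM f z n) : SF f 0 z := by
  refine sf_of_local f 0 z (fun H b hb hH => ?_) (exists_fe f hf)
  have h1 := (h.mono hn) H b hb hH
  rwa [pow_one, Polynomial.dvd_iff_isRoot] at h1

/-- **Reduced forced roots at `-1`.** -/
theorem rf_of_double {σ : Type} [Finite σ] (g : MvPolynomial σ ℂ) (hg : g ≠ 0)
    (h : LM (fun _ : Fin 1 => g) (-1) 2) : RF g 0 (-1) := by
  classical
  intro B P hRE
  by_contra hne
  have hB1 : mulB ((Polynomial.X - Polynomial.C (C (-1 : ℂ))) * B) (G0 (fun _ : Fin 1 => g)) ∈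
      V (fun _ : Fin 1 => g) 1 := by
    have h2 : mulB ((Polynomial.X - Polynomial.C (C (-1 : ℂ))) * B) (G0 (fun _ : Fin 1 => g)) =
        Pool.Agent.W574.RO.gen (fun _ : Fin 1 => g) (P.mapDomain (fun m => Finsupp.single 0 m)) (fun _ => 1) := by
      funext s
      have h3 := hRE (s 0)
      have h4 : ((s 0 : ℕ) : MvPolynomial σ ℂ) = C ((s 0 : ℕ) : ℂ) := by simp
      rw [h4] at h3
      have h5 : gterm (fun _ : Fin 1 => g) (fun _ => 1) s = g ^ (s 0 + 1) := by
        unfold gterm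
        simp
      rw [Pool.Agent.W574.RO.gen, h5, applyAt, Finsupp.sum_mapDomain_index (fun m => by simp) (fun m Q Q' => by
        rw [← smul_add]
        rfl)]
      simp only [mulB, G0, Fin.sum_univ_one, Fin.prod_univ_one, Finsupp.single_eq_same, Fin.isValue]
      rw [← h3, Polynomial.eval_mul, Polynomial.eval_sub, Polynomial.eval_X,
        Polynomial.eval_C, smul_eq_C_mul, map_add, map_one, map_neg, map_one]
      ring
    rw [h2]
    exact gen_mem _ _ _ (by simp)
  obtain ⟨b0, hb0, hfe⟩ := exists_fe (fun _ : Fin 1 => g) ⟨0, hg⟩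
  obtain ⟨b1, hb1, hnd⟩ := Polynomial.exists_eq_pow_rootMultiplicity_mul_and_not_dvd b0 hb0 (-1)
  set k := b0.rootMultiplicity (-1) with hk
  obtain ⟨B', hB'⟩ : (Polynomial.X - Polynomial.C (C (-1 : ℂ) : MvPolynomial σ ℂ)) ∣
      B - Polynomial.C (B.eval (C (-1 : ℂ))) := by
    rw [Polynomial.dvd_iff_isRoot, Polynomial.IsRoot, Polynomial.eval_sub, Polynomial.eval_C,
      sub_self]
  have hstep : ∀ j : ℕ, j + 1 ≤ k → ∃ H : MvPolynomial σ ℂ, eval 0 H ≠ 0 ∧
      mulB (Polynomial.C H * ((Polynomial.X - Polynomial.C (-1 : ℂ)) ^ (k - j) * b1).map C)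
        (G0 (fun _ : Fin 1 => g)) ∈ V (fun _ : Fin 1 => g) 1 := by
    intro j
    induction j with
    | zero =>
      intro _
      refine ⟨1, by rw [map_one]; exact one_ne_zero, ?_⟩
      rw [map_one, one_mul, Nat.sub_zero, ← hb1]
      exact (functionalEq_iff' (fun _ : Fin 1 => g) b0).1 hfe
    | succ j ih =>
      intro hj
      obtain ⟨H, hH, hV⟩ := ih (by omega)
      refine ⟨B.eval (C (-1 : ℂ)) * H, by rw [map_mul]; exact mul_ne_zero hne hH, ?_⟩
      obtain ⟨i, hi⟩ : ∃ i, k - j = i + 1 + 1 := ⟨k - j - 2, by omega⟩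
      have hi' : k - (j + 1) = i + 1 := by omega
      rw [hi']
      rw [hi] at hV
      have h1 : mulB (Polynomial.C H * ((Polynomial.X - Polynomial.C (-1 : ℂ)) ^ i * b1).map C)
          (mulB ((Polynomial.X - Polynomial.C (C (-1 : ℂ))) * B) (G0 (fun _ : Fin 1 => g))) ∈
            V (fun _ : Fin 1 => g) 1 := mulB_mem _ 1 _ _ hB1
      have h2 := mulB_mem (fun _ : Fin 1 => g) 1 B' _ hV
      have h3 : mulB (Polynomial.C (B.eval (C (-1 : ℂ)) * H) *
          ((Polynomial.X - Polynomial.C (-1 : ℂ)) ^ (i + 1) * b1).map C)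
            (G0 (fun _ : Fin 1 => g)) =
          mulB (Polynomial.C H * ((Polynomial.X - Polynomial.C (-1 : ℂ)) ^ i * b1).map C)
            (mulB ((Polynomial.X - Polynomial.C (C (-1 : ℂ))) * B) (G0 (fun _ : Fin 1 => g))) -
            mulB B' (mulB (Polynomial.C H *
              ((Polynomial.X - Polynomial.C (-1 : ℂ)) ^ (i + 1 + 1) * b1).map C)
                (G0 (fun _ : Fin 1 => g))) := by
        rw [← mulB_mul, ← mulB_mul, ← mulB_sub]
        congr 1
        have h4 : B = Polynomial.C (B.eval (C (-1 : ℂ))) +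
            (Polynomial.X - Polynomial.C (C (-1 : ℂ) : MvPolynomial σ ℂ)) * B' := by
          rw [← hB']
          ring
        conv_rhs => rw [h4]
        simp only [Polynomial.map_mul, Polynomial.map_pow, Polynomial.map_sub, Polynomial.map_X,
          Polynomial.map_C, map_mul]
        ring
      rw [h3]
      exact Submodule.sub_mem _ h1 h2
  by_cases hk0 : k = 0
  · have h1 := (h.mono (show 1 ≤ 2 by omega)) 1 b0 ((isLocEq_iff 1 _ b0).2 (by
      rw [map_one, one_mul]
      exact (functionalEq_iff' (fun _ : Fin 1 => g) b0).1 hfe)) (by rw [map_one]; exact one_ne_zero)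
    rw [pow_one] at h1
    apply hnd
    rwa [hb1, hk0, pow_zero, one_mul] at h1
  · obtain ⟨H, hH, hV⟩ := hstep (k - 1) (by omega)
    have e : k - (k - 1) = 1 := by omega
    rw [e, pow_one] at hV
    obtain ⟨c, hc⟩ := h H _ ((isLocEq_iff H _ _).2 hV) hH
    apply hnd
    refine ⟨c, ?_⟩
    have h5 : (Polynomial.X - Polynomial.C (-1 : ℂ)) ≠ 0 := Polynomial.X_sub_C_ne_zero _
    apply mul_left_cancel₀ h5
    rw [hc]
    ring

/-- the functional equations of principal ideals -/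
theorem single_of_locEq {σ : Type} (F H : MvPolynomial σ ℂ) (b : Polynomial ℂ)
    (h : IsLocEq H (fun _ : Fin 1 => F) b) : ∃ P : ℕ →₀ weylS σ, ∀ s : ℕ,
      H * (C (b.eval (s : ℂ)) * F ^ s) = P.sum fun m Q => ((s : ℂ) ^ m) •
        (Q : Module.End ℂ (MvPolynomial σ ℂ)) (F ^ (s + 1)) := by
  classical
  obtain ⟨S, P, hS, hP⟩ := h
  let Q : (Fin 1 →₀ ℕ) →₀ weyl σ := ∑ c ∈ S, P c
  let P1 : ℕ →₀ weyl σ := Q.mapDomain (fun β => β 0)
  have key : ∀ k : ℕ, H * (C (b.eval (k : ℂ)) * F ^ k) =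
      P1.sum fun m R => ((k : ℂ) ^ m) • (R : Module.End ℂ (MvPolynomial σ ℂ)) (F ^ (k + 1)) := by
    intro k
    have h1 := hP (fun _ => k)
    rw [Fin.sum_univ_one, Fin.prod_univ_one] at h1
    rw [h1]
    have h3 : ∀ c ∈ S, applyAt (P c) (fun _ => k)
        (C ((∏ j, if c j < 0 then (k.choose (-(c j)).toNat) else 1 : ℕ) : ℂ) *
          ∏ j, (fun _ : Fin 1 => F) j ^ ((k : ℤ) + c j).toNat) =
        applyAt (P c) (fun _ => k) (F ^ (k + 1)) := by
      intro c hc
      have h4 : c 0 = 1 := by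
        have := hS c hc
        simpa using this
      rw [Fin.prod_univ_one, Fin.prod_univ_one, h4, if_neg (by norm_num), Nat.cast_one, map_one,
        one_mul]
      congr 2
    have h6 : ∑ c ∈ S, applyAt (P c) (fun _ : Fin 1 => k) (F ^ (k + 1)) =
        applyAt Q (fun _ => k) (F ^ (k + 1)) := by
      exact (Pool.Agent.Y475.TL.applyAt_sum S P _ _).symm
    refine (Finset.sum_congr rfl h3).trans ?_
    rw [h6]
    change _ = (Q.mapDomain (fun β => β 0)).sum _
    rw [Finsupp.sum_mapDomain_index (fun m => by simp) (fun m Q Q' => by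
        rw [← smul_add]
        rfl)]
    unfold applyAt
    simp
  clear_value P1
  refine ⟨∑ m ∈ P1.support, Finsupp.single m ⟨(P1 m).1, (P1 m).2⟩, fun k => ?_⟩
  rw [key k, ← Finsupp.sum_finsetSum_index]
  · refine Finset.sum_congr rfl fun m _ => ?_
    rw [Finsupp.sum_single_index (by rw [ZeroMemClass.coe_zero, LinearMap.zero_apply, smul_zero])]
  · intro a
    rw [ZeroMemClass.coe_zero, LinearMap.zero_apply, smul_zero]
  · intro a A B
    rw [← smul_add]
    rfl

/-- operators with polynomial weights -/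
theorem loc_of_weights {σ : Type} (g H : MvPolynomial σ ℂ) (c : Polynomial ℂ) (M : Finset ℕ)
    (w : ℕ → Polynomial ℂ) (Q : ℕ → Module.End ℂ (MvPolynomial σ ℂ)) (hQ : ∀ m, Q m ∈ weyl σ)
    (h : ∀ n : ℕ, H * (c.eval (n : ℂ) • g ^ n) =
      ∑ m ∈ M, ((w m).eval (n : ℂ)) • Q m (g ^ (n + 1))) :
    IsLocEq H (fun _ : Fin 1 => g) c := by
  classical
  refine locEq_single g H c (∑ m ∈ M, ∑ l ∈ Finset.range ((w m).natDegree + 1),
    Finsupp.single l ⟨(w m).coeff l • Q m, Subalgebra.smul_mem _ (hQ m) _⟩) fun s => ?_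
  have h0 : ∀ a : ℕ, ((s : ℂ) ^ a) • (((0 : weylS σ) : Module.End ℂ (MvPolynomial σ ℂ))
      (g ^ (s + 1))) = 0 := by
    intro a
    rw [ZeroMemClass.coe_zero, LinearMap.zero_apply, smul_zero]
  have hadd : ∀ (a : ℕ) (A B : weylS σ), ((s : ℂ) ^ a) • (((A + B : weylS σ) :
      Module.End ℂ (MvPolynomial σ ℂ)) (g ^ (s + 1))) =
      ((s : ℂ) ^ a) • ((A : Module.End ℂ (MvPolynomial σ ℂ)) (g ^ (s + 1))) +
      ((s : ℂ) ^ a) • ((B : Module.End ℂ (MvPolynomial σ ℂ)) (g ^ (s + 1))) := by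
    intro a A B
    rw [← smul_add]
    rfl
  rw [← Finsupp.sum_finsetSum_index]
  rotate_left
  · exact h0
  · exact hadd
  rw [C_mul', h s]
  refine Finset.sum_congr rfl fun m _ => ?_
  rw [← Finsupp.sum_finsetSum_index]
  rotate_left
  · exact h0
  · exact hadd
  rw [Polynomial.eval_eq_sum_range, Finset.sum_smul]
  refine Finset.sum_congr rfl fun l _ => ?_
  rw [Finsupp.sum_single_index]
  rotate_left
  · exact h0 l
  change _ = ((s : ℂ) ^ l) • ((w m).coeff l • Q m (g ^ (s + 1)))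
  rw [smul_smul, mul_comm]

/-- **The local functional equations of `g ^ k` give local functional equations of `g`.** -/
theorem loc_shift {σ : Type} (g : MvPolynomial σ ℂ) (hg : g ≠ 0) (k j : ℕ) (hj : j < k)
    (H : MvPolynomial σ ℂ) (b : Polynomial ℂ) (hb : IsLocEq H (fun _ : Fin 1 => g ^ k) b) :
    IsLocEq H (fun _ : Fin 1 => g)
      (b.comp (Polynomial.C ((k : ℂ)⁻¹) * (Polynomial.X - Polynomial.C (j : ℂ)))) := by
  classical
  obtain ⟨P, hP⟩ := single_of_locEq _ H b hb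
  have hk : k ≠ 0 := by omega
  have hkC : (k : ℂ) ≠ 0 := by exact_mod_cast hk
  set w0 : Polynomial ℂ := Polynomial.C ((k : ℂ)⁻¹) * (Polynomial.X - Polynomial.C (j : ℂ))
    with hw0
  set w : ℕ → Polynomial ℂ := fun m => w0 ^ m with hw
  set Q : ℕ → Module.End ℂ (MvPolynomial σ ℂ) := fun m =>
    LinearMap.mulLeft ℂ (g ^ j) * ((P m : Module.End ℂ (MvPolynomial σ ℂ)) *
      LinearMap.mulLeft ℂ (g ^ (k - 1 - j))) with hQdef
  have hQ : ∀ m, Q m ∈ weyl σ := fun m =>
    Subalgebra.mul_mem _ (hmul _) (Subalgebra.mul_mem _ (P m).2 (hmul _))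
  set c : Polynomial ℂ := b.comp w0 with hc
  set u : ℕ → MvPolynomial σ ℂ := fun n =>
    (∑ m ∈ P.support, ((w m).eval (n : ℂ)) • Q m (g ^ (n + 1))) +
      (-1 : ℂ) • (c.eval (n : ℂ) • LinearMap.mulLeft ℂ H (g ^ n)) with hu
  have hfrg : Fr g (fun n => g ^ (n + 1)) := ⟨0, Polynomial.C g, fun n => by
    rw [Polynomial.eval_C]; ring⟩
  have hfr0 : Fr g (fun n => g ^ n) := ⟨0, 1, fun n => by
    rw [Polynomial.eval_one]; ring⟩
  have hfr : Fr g u := by
    refine fr_add (fr_sum _ _ _ fun m _ => ?_) ?_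
    · exact fr_pol (fr_weyl (Q m) (hQ m) _ hfrg) (w m)
    · have h1 := fr_pol (fr_pol (fr_weyl _ (hmul H) _ hfr0) c) (Polynomial.C (-1))
      simp only [Polynomial.eval_C] at h1
      exact h1
  have hev : ∀ n : ℕ, w0.eval ((k * n + j : ℕ) : ℂ) = n := by
    intro n
    rw [hw0, Polynomial.eval_mul, Polynomial.eval_sub, Polynomial.eval_C, Polynomial.eval_C,
      Polynomial.eval_X]
    push_cast
    rw [add_sub_cancel_right, inv_mul_cancel_left₀ hkC]
  have hzero : ∀ n : ℕ, u (k * n + j) = 0 := by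
    intro n
    have h1 := hP n
    have h2 : c.eval ((k * n + j : ℕ) : ℂ) = b.eval (n : ℂ) := by
      rw [hc, Polynomial.eval_comp, hev]
    have h3 : ∀ m : ℕ, ((w m).eval ((k * n + j : ℕ) : ℂ)) • Q m (g ^ (k * n + j + 1)) =
        g ^ j * (((n : ℂ) ^ m) • (P m : Module.End ℂ (MvPolynomial σ ℂ)) ((g ^ k) ^ (n + 1))) := by
      intro m
      have h4 : g ^ (k - 1 - j) * g ^ (k * n + j + 1) = (g ^ k) ^ (n + 1) := by
        rw [← pow_add, ← pow_mul]
        congr 1
        rw [mul_add, mul_one]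
        omega
      rw [hw]
      beta_reduce
      rw [Polynomial.eval_pow, hev, hQdef, mul_smul_comm]
      change _ • (g ^ j * (P m : Module.End ℂ (MvPolynomial σ ℂ))
        (g ^ (k - 1 - j) * g ^ (k * n + j + 1))) = _
      rw [h4]
    rw [hu]
    beta_reduce
    rw [C_mul', Finsupp.sum] at h1
    rw [Finset.sum_congr rfl fun m _ => h3 m, ← Finset.mul_sum, ← h1, h2, neg_one_smul,
      LinearMap.mulLeft_apply, mul_smul_comm, mul_smul_comm, ← pow_mul,
      show g ^ j * (H * g ^ (k * n)) = H * g ^ (k * n + j) by rw [pow_add]; ring, add_neg_cancel]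
  obtain ⟨M, ρ, e⟩ := hfr
  have hρ : ρ = 0 := by
    refine Polynomial.eq_zero_of_infinite_isRoot ρ ?_
    have hinj : Function.Injective (fun n : ℕ => ((k * n + j : ℕ) : MvPolynomial σ ℂ)) := by
      intro n n' h
      have h1 : k * n + j = k * n' + j := Nat.cast_injective (R := MvPolynomial σ ℂ) h
      exact Nat.eq_of_mul_eq_mul_left (Nat.pos_of_ne_zero hk) (by omega)
    refine (Set.infinite_range_of_injective hinj).mono ?_
    rintro _ ⟨n, rfl⟩
    have h1 := e (k * n + j)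
    rw [hzero, mul_zero] at h1
    exact (mul_eq_zero.1 h1.symm).resolve_right (pow_ne_zero _ hg)
  have hall : ∀ n, u n = 0 := by
    intro n
    have h1 := e n
    rw [hρ, Polynomial.eval_zero, zero_mul] at h1
    exact (mul_eq_zero.1 h1).resolve_left (pow_ne_zero _ hg)
  refine loc_of_weights g H c P.support w Q hQ fun n => ?_
  have h1 := hall n
  rw [hu] at h1
  beta_reduce at h1
  rw [neg_one_smul, ← sub_eq_add_neg, sub_eq_zero, LinearMap.mulLeft_apply] at h1
  rw [h1, mul_smul_comm]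

end Pool.Agent.R852.TL
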