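import Pool.Agent.R852.TL.Defs
import Pool.Agent.R852.TL.Loc
import Pool.Agent.R852.TP.Main

set_option autoImplicit false
set_option linter.unusedSectionVars false
set_option linter.unusedVariables false

/-! # Germs: the induction -/

namespace Pool.Agent.R852.TL

open Polynomial Pool.Agent.W574.SM Pool.Agent.W574.CN Pool.Agent.W574.RO Pool.Agent.Y229
open Pool.Agent.W574.MO Pool.Agent.W425.SM Pool.Agent.W425.SV Pool.Agent.W422.GC
open Pool.Agent.W425.ND Pool.Agent.W574.HS Pool.Agent.W574.LM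
open Pool.Agent.Y230.TH (univFam tsFam X1_reg X1_ne X1_inv pole_of_ref ref_of_pole tsFam_ne
  univFam_ne dl_eq)
open Pool.Agent.R852.PP Pool.Agent.R852.TP
open Pool.Agent.Y230.TL (RF RE StJ StU StL Cl sf_minus_one zero_of_sf sf_univFam rf_tsFam
  rf_equiv rf_drop locEq_single)

/-- the powers -/
theorem clL_pow (T : AddSubmonoid ℂ)
    (hT : ∀ t ∈ T, ∀ k : ℕ, k ≠ 0 → ∃ j < k, ∃ t' ∈ T, t + j = k * t') {σ : Type}
    (g : MvPolynomial σ ℂ) (k : ℕ) (hk : k ≠ 0) (p q : ℂ[X]) (hq : q ≠ 0)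
    (ih : Cl T true ⟨σ, Fin 1, fun _ => g⟩
      (algebraMap ℂ[X] (RatFunc ℂ) p / algebraMap ℂ[X] (RatFunc ℂ) q)) :
    Cl T false ⟨σ, Fin 1, fun _ => g ^ k⟩ (algebraMap ℂ[X] (RatFunc ℂ) (p.comp (C (k : ℂ) * X)) /
      algebraMap ℂ[X] (RatFunc ℂ) (q.comp (C (k : ℂ) * X))) := by
  classical
  have hg : g ≠ 0 := by
    obtain ⟨j, hj⟩ := ih.ne
    exact hj
  have hfin : Finite σ := ih.fin
  refine ⟨ih.fin, ⟨(0 : Fin 1), pow_ne_zero k hg⟩, fun s hs => ?_, fun h0 => absurd h0 (by simp)⟩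
  obtain ⟨t, ht, h1⟩ := ih.pole _ (pole_scale k hk p q hq s hs)
  obtain ⟨j, hj, t', ht', h2⟩ := hT t ht k hk
  refine ⟨t', ht', ?_⟩
  have hkC : (k : ℂ) ≠ 0 := by exact_mod_cast hk
  refine sf_of_local _ 0 _ (fun H b hb hH => ?_) (exists_fe _ ⟨(0 : Fin 1), pow_ne_zero k hg⟩)
  have h3 := h1.locEq H _ (loc_shift g hg k j hj H b hb) hH
  rw [eval_comp, eval_mul, eval_sub, eval_C, eval_C, eval_X] at h3
  have e : (k : ℂ)⁻¹ * (k * s - t - j) = s - t' := by
    have : (k : ℂ) * s - t - j = k * (s - t') := by linear_combination -h2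
    rw [this, inv_mul_cancel_left₀ hkC]
  rwa [e] at h3

section Form

variable {σ τ : Type} [Fintype τ] [DecidableEq τ] {κ : τ → Type} [∀ t, Fintype (κ t)]
  (a : τ → ℕ) (h : MvPolynomial σ ℂ) (f : (t : τ) → κ t → MvPolynomial σ ℂ)

/-- **The local functional equations of a product of powers.** -/
theorem lm_form [Finite σ] [Nonempty τ] (ha : ∀ t, 0 < a t) (hA : ∃ J, (genFam a h f).f J ≠ 0)
    (z : ℂ) (n : ℕ) (hn : LM (genFam a h f).f z n) : LM (formFam a h f).f z (n + cntR a z) := by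
  classical
  intro H b hb hH
  obtain ⟨hh, hf⟩ := gen_ne' a h f ha hA
  obtain ⟨t0⟩ := (inferInstance : Nonempty τ)
  obtain ⟨P, hP⟩ := single_of_locEq _ H b hb
  have hH0 : hat H 0 ≠ 0 := by
    intro h0
    apply hH
    rw [MvPolynomial.eval_zero, ← cc_hat, h0, map_zero]
  obtain ⟨b', e, h2⟩ := locEq_strong a h f hh hf t0 (ha t0).ne' b H hH0 P hP
  have h3 : (X - C z) ^ n ∣ b' := hn _ b' h2 (by
    rw [MvPolynomial.eval_zero, cc_hat]
    rwa [MvPolynomial.eval_zero] at hH)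
  rw [e, pow_add, mul_comm (phiA a)]
  exact mul_dvd_mul h3 (cntR_dvd a z)

/-- the products of powers -/
theorem clL_form (hL : StL) (T : AddSubmonoid ℂ) [Nonempty τ] (ha : ∀ t, 0 < a t)
    (Z : RatFunc ℂ) (ih : Cl T false (genFam a h f) Z) :
    Cl T true (formFam a h f) (Z * ∏ t, fac (a t) 1) := by
  classical
  have hfin : Finite σ := ih.fin
  have hne := ih.ne
  obtain ⟨t0⟩ := (inferInstance : Nonempty τ)
  have hF := form_ne' a h f ha hne
  have hfin' : Finite ((Σ t, κ t) ⊕ σ) := inferInstance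
  have hFne : ∃ j, (formFam a h f).f j ≠ 0 := ⟨(0 : Fin 1), hF⟩
  have hcnt : ∀ z, LM (formFam a h f).f z (cntR a z) := fun z => by
    have := lm_form a h f ha hne z 0 (lm_zero _ z)
    rwa [zero_add] at this
  have hadd : ∀ z, SF (genFam a h f).f 0 z → LM (formFam a h f).f z (1 + cntR a z) := fun z hz =>
    lm_form a h f ha hne z 1 (lm_of_sf _ z hz)
  have hRF : ∀ z, LM (formFam a h f).f z (if z = -1 then 2 else 1) →
      ∀ j, RF ((formFam a h f).f j) 0 z := by
    intro z hz j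
    by_cases h1 : z = -1
    · subst h1
      rw [if_pos rfl] at hz
      exact rf_of_double _ hF hz
    · rw [if_neg h1] at hz
      exact hL.rf_of_sf _ 0 z h1 (sf_of_lm _ hFne z 1 le_rfl hz)
  refine ⟨hfin', hFne, fun s hs => ?_, fun _ s hs => ?_⟩
  · rcases prod_fac_pole a ha Z s hs with h1 | ⟨t, h1⟩
    · obtain ⟨t, ht, h2⟩ := ih.pole s h1
      exact ⟨t, ht, sf_of_lm _ hFne _ _ (Nat.le_add_right _ _) (hadd _ h2)⟩
    · refine ⟨0, T.zero_mem, ?_⟩
      rw [sub_zero]
      exact sf_of_lm _ hFne _ _ (one_le_cntR' a ha t s h1) (hcnt s)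
  · by_cases h1 : Z.denom.eval s = 0
    · obtain ⟨t, ht, h2⟩ := ih.pole s h1
      refine ⟨t, ht, hRF _ ((hadd _ h2).mono ?_)⟩
      split_ifs with h3
      · rw [h3]
        have := one_le_cntR a t0 (ha t0)
        omega
      · exact Nat.le_add_right _ _
    · refine ⟨0, T.zero_mem, ?_⟩
      rw [sub_zero]
      refine hRF _ ((hcnt s).mono ?_)
      by_cases hs1 : s = -1
      · subst hs1
        rw [if_pos rfl]
        refine two_le_cntR a ha ?_
        by_contra hcard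
        have hcard1 : Fintype.card τ = 1 :=
          le_antisymm (by omega) (Fintype.card_pos_iff.2 ⟨t0⟩)
        obtain ⟨x, hx⟩ := Fintype.card_eq_one_iff.1 hcard1
        have e : ∏ t, fac (a t) 1 = fac (a x) 1 := by
          rw [Finset.prod_eq_single x]
          · intro y _ hy
            exact absurd (hx y) hy
          · intro h
            exact absurd (Finset.mem_univ _) h
        rw [e] at hs
        refine Reg_denom (-1) _ ?_ hs
        have e2 : (RatFunc.X + 1) * (Z * fac (a x) 1) = Z * ((RatFunc.X + 1) * fac (a x) 1) := by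
          ring
        rw [e2]
        refine (Reg _).mul_mem (mem_Reg_of_denom _ _ h1) ?_
        by_cases h2 : a x = 1
        · have e3 : (RatFunc.X + 1) * fac (a x) 1 = (1 : RatFunc ℂ) := by
            rw [h2, fac]
            have h4 := X1_ne
            have h5 : ((1 : ℕ) : RatFunc ℂ) + ((1 : ℕ) : RatFunc ℂ) * RatFunc.X =
                RatFunc.X + 1 := by
              push_cast
              ring
            rw [h5, mul_one_div, div_self h4]
          rw [e3]
          exact (Reg _).one_mem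
        · refine (Reg _).mul_mem (X1_reg _) (fac_mem _ _ _ fun h3 => h2 ?_)
          have h4 : (a x : ℂ) = 1 := by
            push_cast at h3
            linear_combination -h3
          exact_mod_cast h4
      · rw [if_neg hs1]
        have h3 : (Z * ∏ t, fac (a t) 1).denom.eval s = 0 := by
          by_contra h4
          refine Reg_denom s _ ?_ hs
          exact (Reg s).mul_mem (X1_reg s) (mem_Reg_of_denom _ _ h4)
        rcases prod_fac_pole a ha Z s h3 with h4 | ⟨t, h4⟩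
        · exact absurd h4 h1
        · exact one_le_cntR' a ha t s h4

end Form

/-- **The induction.** -/
theorem tq_closure (hJ : StJ) (hU : StU) (hL : StL) (T : AddSubmonoid ℂ)
    (hT : ∀ t ∈ T, ∀ k : ℕ, k ≠ 0 → ∃ j < k, ∃ t' ∈ T, t + j = k * t')
    (At HAt : Fam → RatFunc ℂ → Prop)
    (hAt : ∀ A Z, At A Z → Finite A.σ ∧ (∃ j, A.f j ≠ 0) ∧
      ∀ s₀ : ℂ, Z.denom.eval s₀ = 0 → ∃ t ∈ T, FoL A (s₀ - t))
    (hHAt : ∀ A Z, HAt A Z → Cl T true A Z)
    (c : Bool) (A : Fam) (Z : RatFunc ℂ) (h : TQ At HAt c A Z) : Cl T c A Z := by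
  induction h with
  | atom A Z h =>
    obtain ⟨h1, h2, h3⟩ := hAt A Z h
    exact ⟨h1, h2, h3, fun h0 => absurd h0 (by simp)⟩
  | hatom A Z h => exact hHAt A Z h
  | hyp A Z h ih => exact ⟨ih.fin, ih.ne, ih.pole, fun h0 => absurd h0 (by simp)⟩
  | pow σ g k hk p q hq h ih => exact clL_pow T hT g k hk p q hq ih
  | form σ τ κ a ha h f Z hA ihA => exact clL_form a h f hL T ha Z ihA
  | sum A B Z W v w hv hw hv0 hw0 hA hB ihA ihB =>
    have := ihA.fin
    have := ihB.fin
    refine ⟨inferInstanceAs (Finite (A.σ ⊕ B.σ)), ?_, fun s hs => ?_,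
      fun h0 => absurd h0 (by simp)⟩
    · obtain ⟨j, hj⟩ := ihA.ne
      refine ⟨Sum.inl j, ?_⟩
      change MvPolynomial.rename Sum.inl (A.f j) ≠ 0
      rw [Ne, map_eq_zero_iff _ (MvPolynomial.rename_injective _ Sum.inl_injective)]
      exact hj
    · obtain ⟨p, hp, q, hq, rfl⟩ := lap2_pole v w s hs
      obtain ⟨t, ht, h1⟩ := ihA.pole _ (pole_of_exp Z v hv hv0 p hp)
      obtain ⟨t', ht', h2⟩ := ihB.pole _ (pole_of_exp W w hw hw0 q hq)
      refine ⟨t + t', T.add_mem ht ht', ?_⟩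
      have h3 : FoL (A.sum B) ((-p.1 - t) + (-q.1 - t')) := isForcing_local.sum A B _ _ h1 h2
      have h4 : -p.1 + -q.1 - (t + t') = (-p.1 - t) + (-q.1 - t') := by ring
      rw [h4]
      exact h3
  | mul A B Z W hA hB ihA ihB =>
    have hfA := ihA.fin
    have hfB := ihB.fin
    have hneA := ihA.ne
    have hneB := ihB.ne
    refine ⟨inferInstanceAs (Finite (A.σ ⊕ B.σ)), ?_, fun s hs => ?_,
      fun h0 => absurd h0 (by simp)⟩
    · obtain ⟨j, hj⟩ := hneA
      obtain ⟨k, hk⟩ := hneB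
      refine ⟨(j, k), ?_⟩
      change (MvPolynomial.rename Sum.inl (A.f j) * MvPolynomial.rename Sum.inr (B.f k) :
        MvPolynomial (A.σ ⊕ B.σ) ℂ) ≠ 0
      refine mul_ne_zero ?_ ?_
      · rw [Ne, map_eq_zero_iff _ (MvPolynomial.rename_injective _ Sum.inl_injective)]
        exact hj
      · rw [Ne, map_eq_zero_iff _ (MvPolynomial.rename_injective _ Sum.inr_injective)]
        exact hk
    · by_cases h1 : Z.denom.eval s = 0
      · obtain ⟨t, ht, h2⟩ := ihA.pole s h1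
        exact ⟨t, ht, isForcing_local.mulL A B _ h2 hneB⟩
      · by_cases h2 : W.denom.eval s = 0
        · obtain ⟨t, ht, h3⟩ := ihB.pole s h2
          exact ⟨t, ht, isForcing_local.mulR A B _ h3 hneA⟩
        · exact absurd hs (Reg_denom s _ ((Reg s).mul_mem (mem_Reg_of_denom _ _ h1)
            (mem_Reg_of_denom _ _ h2)))
  | univ A Z hA ihA =>
    have hfA := ihA.fin
    have hneA := ihA.ne
    have hfin : Finite (A.ι ⊕ A.σ) := inferInstance
    have hz : MvPolynomial.constantCoeff (∑ j, MvPolynomial.X (Sum.inl j) *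
        MvPolynomial.rename Sum.inr (A.f j) : MvPolynomial (A.ι ⊕ A.σ) ℂ) = 0 := by
      rw [map_sum]
      refine Finset.sum_eq_zero fun j _ => ?_
      rw [map_mul, MvPolynomial.constantCoeff_X, zero_mul]
    have h1 : SF (univFam A).f 0 (-1) := sf_minus_one _ (univFam_ne A hneA) hz
    refine ⟨hfin, ⟨0, univFam_ne A hneA⟩, fun s hs => ?_, fun _ s hs => ?_⟩
    · rcases pole_form Z s hs with h2 | rfl
      · obtain ⟨t, ht, h3⟩ := ihA.pole s h2
        exact ⟨t, ht, hL.sf_of_rf _ 0 _ (sf_univFam hU A _ h3)⟩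
      · exact ⟨0, T.zero_mem, by rw [sub_zero]; exact h1⟩
    · have e : (RatFunc.X + 1) * (Z * (RatFunc.X + 1)⁻¹) = Z := by
        have := X1_ne
        field_simp
      rw [e] at hs
      obtain ⟨t, ht, h3⟩ := ihA.pole s hs
      exact ⟨t, ht, fun j => sf_univFam hU A _ h3⟩
  | ts A τ g Z W v w hv hw hv0 hw0 h0 hA hg ihA ihg =>
    have hfA := ihA.fin
    have hfg : Finite τ := ihg.fin
    have hneA := ihA.ne
    have hg0 : g ≠ 0 := by
      obtain ⟨j, hj⟩ := ihg.ne
      exact hj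
    have hfin : Finite ((A.ι ⊕ A.σ) ⊕ τ) := inferInstance
    have hz : MvPolynomial.constantCoeff (MvPolynomial.rename Sum.inl
        (∑ j, MvPolynomial.X (Sum.inl j) * MvPolynomial.rename Sum.inr (A.f j) :
          MvPolynomial (A.ι ⊕ A.σ) ℂ) + MvPolynomial.rename Sum.inr g :
            MvPolynomial ((A.ι ⊕ A.σ) ⊕ τ) ℂ) = 0 := by
      rw [map_add, MvPolynomial.constantCoeff_rename, MvPolynomial.constantCoeff_rename, h0,
        add_zero, map_sum]
      refine Finset.sum_eq_zero fun j _ => ?_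
      rw [map_mul, MvPolynomial.constantCoeff_X, zero_mul]
    have h1 : SF (tsFam A τ g).f 0 (-1) := sf_minus_one _ (tsFam_ne A τ g hg0) hz
    have href : ∀ s : ℂ, (1 - RatFunc.X * lap2 v w).denom.eval s = 0 →
        ∃ t ∈ T, RF ((tsFam A τ g).f 0) 0 (s - t) := by
      intro s hs
      obtain ⟨p, hp, q, hq, rfl⟩ := lap2_pole v w s hs
      obtain ⟨t, ht, h3⟩ := ihA.pole _ (pole_of_exp Z v hv hv0 p hp)
      obtain ⟨t', ht', h5⟩ := ihg.ref rfl _ (pole_of_exp _ w hw hw0 q hq)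
      refine ⟨t + t', T.add_mem ht ht', ?_⟩
      have h6 : -p.1 + -q.1 - (t + t') = (-p.1 - t) + (-q.1 - t') := by ring
      rw [h6]
      exact rf_tsFam hJ hL A τ g hg0 _ _ h3 (h5 0)
    refine ⟨hfin, ⟨0, tsFam_ne A τ g hg0⟩, fun s hs => ?_, fun _ s hs => ?_⟩
    · rcases pole_form _ s hs with h2 | rfl
      · obtain ⟨t, ht, h3⟩ := href s h2
        exact ⟨t, ht, hL.sf_of_rf _ 0 _ h3⟩
      · exact ⟨0, T.zero_mem, by rw [sub_zero]; exact h1⟩
    · have e : (RatFunc.X + 1) * ((1 - RatFunc.X * lap2 v w) * (RatFunc.X + 1)⁻¹) =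
          1 - RatFunc.X * lap2 v w := by
        rw [mul_comm, mul_assoc, inv_mul_cancel₀ X1_ne, mul_one]
      rw [e] at hs
      obtain ⟨t, ht, h3⟩ := href s hs
      exact ⟨t, ht, fun j => h3⟩
  | drop σ κ g Z h ih =>
    have hf : Finite (σ ⊕ κ) := ih.fin
    have hf' : Finite σ := Finite.of_injective (Sum.inl : σ → σ ⊕ κ) Sum.inl_injective
    have hg0 : g ≠ 0 := by
      rintro rfl
      obtain ⟨j, hj⟩ := ih.ne
      exact hj (map_zero _)
    refine ⟨hf', ⟨(0 : Fin 1), hg0⟩, fun s hs => ?_, fun h0 s hs => ?_⟩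
    · obtain ⟨t, ht, h1⟩ := ih.pole s hs
      refine ⟨t, ht, ?_⟩
      by_cases h2 : s - t = -1
      · rw [h2]
        refine sf_minus_one g hg0 ?_
        have h3 : MvPolynomial.constantCoeff
            (MvPolynomial.rename Sum.inl g : MvPolynomial (σ ⊕ κ) ℂ) = 0 := zero_of_sf _ _ h1
        rwa [MvPolynomial.constantCoeff_rename] at h3
      · exact hL.sf_of_rf g 0 _ (rf_drop hL (κ := κ) g _ (hL.rf_of_sf _ 0 _ h2 h1))
    · obtain ⟨t, ht, h1⟩ := ih.ref h0 s hs
      exact ⟨t, ht, fun j => rf_drop hL (κ := κ) g _ (h1 0)⟩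
  | equiv c A B i k h Z hA ihA =>
    have hf := ihA.fin
    refine ⟨Finite.of_equiv A.σ i, ?_, fun s hs => ?_, fun h0 s hs => ?_⟩
    · obtain ⟨j, hj⟩ := ihA.ne
      refine ⟨k j, ?_⟩
      rw [h, Ne, map_eq_zero_iff _ (MvPolynomial.rename_injective _ i.injective)]
      exact hj
    · obtain ⟨t, ht, h1⟩ := ihA.pole s hs
      exact ⟨t, ht, isForcing_local.equiv A B i k h _ h1⟩
    · obtain ⟨t, ht, h1⟩ := ihA.ref h0 s hs
      refine ⟨t, ht, fun j => ?_⟩
      obtain ⟨j', rfl⟩ := k.surjective j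
      rw [h]
      exact rf_equiv hL i _ _ (h1 j')

end Pool.Agent.R852.TL
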