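import Pool.Agent.R852.TP.Defs
import Pool.Agent.Y230.TL.Fin
import Pool.Agent.Y228.RR.Top

set_option autoImplicit false

/-! # Germs: classes of local topological zeta functions closed under products of powers of forms -/

namespace Pool.Agent.R852.TL

open MvPolynomial Pool.Agent.W574.SM Pool.Agent.W574.CN Pool.Agent.W574.RO Pool.Agent.Y229
open Pool.Agent.W574.MO Pool.Agent.W425.SM Pool.Agent.W425.SV Pool.Agent.W422.GC
open Pool.Agent.W425.ND Pool.Agent.Y230.TH Pool.Agent.TH187.SA Pool.Agent.R852.TP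
open Pool.Agent.Y228.RR (FromRees)
open Pool.Agent.Y230.RS (topZeta)

/-- `StrongL A Z`: germs at the origin of ideals, with their local topological zeta functions: the
germs in `StrongLocal`, the ideals with Rees divisors, the products of linear ideals. -/
inductive StrongL : Fam → RatFunc ℂ → Prop
  /-- the germs in `StrongLocal` (with finitely many variables) -/
  | loc (A : Fam) (Z : RatFunc ℂ) (hfin : Finite A.σ) (h : StrongLocal A Z) : StrongL A Z
  /-- the product `∏ t, I_t ^ a t`, `I_t = (g t j)_j`, with `topZeta` for the divisors `E_i`, `i ∈ J`, of a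
  log resolution, `m i t = ord_{E_i} I_t`, `k i = ord_{E_i} K`, and the Euler characteristics `χ S` of
  the parts of the strata over the origin, such that for all `E_i` which occur in a stratum with
  `χ S ≠ 0` the number `-(k i + 1) / ∑ t, a t * m i t` comes from Rees divisors near the origin -/
  | rees (σ T J : Type) [Fintype σ] [DecidableEq σ] [Fintype T] [DecidableEq T] [Fintype J]
      [DecidableEq J] (κ : T → Type) [∀ t, Fintype (κ t)] [∀ t, DecidableEq (κ t)]
      (g : (t : T) → κ t → MvPolynomial σ ℂ) (hg : ∀ t, ∃ j, g t j ≠ 0) (a : T → ℕ)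
      (k : J → ℕ) (m : J → T → ℕ) (χ : Finset J → ℤ)
      (h : ∀ i, 0 < ∑ t, a t * m i t → (∃ S, χ S ≠ 0 ∧ i ∈ S) →
        ∀ H : MvPolynomial σ ℂ, constantCoeff H ≠ 0 →
          FromRees g a H (k i + 1) (∑ t, a t * m i t)) :
      StrongL ⟨σ, (q : Σ t, Fin (a t)) → κ q.1, fun J => ∏ q, g q.1 (J q)⟩
        (topZeta (fun i => ∑ t, a t * m i t) k χ)
  /-- the product `∏_s I(L_s) ^ e_s`, where `L_s = zeros (c s)` is a proper linear subspace, with
  `topZeta` for the wonderful model of a building set `G` of Rees flats of the arrangement, with the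
  Euler characteristics `χ` of the parts of the strata over the origin -/
  | arr (σ S I : Type) [Fintype σ] [DecidableEq σ] [Fintype S] [DecidableEq S] [Fintype I]
      [DecidableEq I] (κ : S → Type) [∀ s, Fintype (κ s)] (c : (s : S) → κ s → σ → ℂ)
      (hc : ∀ s, ∃ j, c s j ≠ 0) (e : S → ℕ) (G : I → Submodule ℂ (σ → ℂ))
      (hG : ∀ i, IsReesFlat (fun s => zeros (c s)) (fun s => e s ≠ 0) (G i)) (χ : Finset I → ℤ) :
      StrongL ⟨σ, _, arrGen c e⟩ (topZeta (fun i => mult (fun s => zeros (c s)) e (G i))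
        (fun i => Fintype.card σ - Module.finrank ℂ (G i) - 1) χ)

/-- `WeakL A Z`: the germs in `StrongL`, and the nondegenerate polynomials (`WeakLocal`). -/
inductive WeakL : Fam → RatFunc ℂ → Prop
  /-- the germs in `StrongL` -/
  | strong (A : Fam) (Z : RatFunc ℂ) (h : StrongL A Z) : WeakL A Z
  /-- the germs in `WeakLocal` (with finitely many variables) -/
  | weak (A : Fam) (Z : RatFunc ℂ) (hfin : Finite A.σ) (h : WeakLocal A Z) : WeakL A Z

/-- Two classes of germs of ideals at the origin, given by generators, together with their local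
topological zeta functions: `TQ At HAt false A Z` for ideals and `TQ At HAt true A Z` for principal
ideals (hypersurfaces). They are the smallest classes with the following properties. -/
inductive TQ (At HAt : Fam → RatFunc ℂ → Prop) : Bool → Fam → RatFunc ℂ → Prop
  /-- the ideals of the given class -/
  | atom (A : Fam) (Z : RatFunc ℂ) (h : At A Z) : TQ At HAt false A Z
  /-- the hypersurfaces of the given class -/
  | hatom (A : Fam) (Z : RatFunc ℂ) (h : HAt A Z) : TQ At HAt true A Z
  /-- a hypersurface is a principal ideal -/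
  | hyp (A : Fam) (Z : RatFunc ℂ) (h : TQ At HAt true A Z) : TQ At HAt false A Z
  /-- the powers of a hypersurface are principal ideals; if `p(s) / q(s)` is the local topological
  zeta function of `g`, then `p(k s) / q(k s)` is the one of `g ^ k` -/
  | pow (σ : Type) (g : MvPolynomial σ ℂ) (k : ℕ) (hk : k ≠ 0) (p q : Polynomial ℂ) (hq : q ≠ 0)
      (h : TQ At HAt true ⟨σ, Fin 1, fun _ => g⟩
        (algebraMap (Polynomial ℂ) (RatFunc ℂ) p / algebraMap (Polynomial ℂ) (RatFunc ℂ) q)) :
      TQ At HAt false ⟨σ, Fin 1, fun _ => g ^ k⟩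
        (algebraMap (Polynomial ℂ) (RatFunc ℂ) (p.comp (Polynomial.C (k : ℂ) * Polynomial.X)) /
          algebraMap (Polynomial ℂ) (RatFunc ℂ) (q.comp (Polynomial.C (k : ℂ) * Polynomial.X)))
  /-- the sum of two ideals in disjoint sets of variables: if `1 - Z = s ∫ V(t) exp(- s t) dt` and
  `1 - W = s ∫ W'(t) exp(- s t) dt`, where no constant function occurs in the exponential
  polynomials `V`, `W'` (given by `v` and `w`), then the local topological zeta function of the sum is
  `1 - s ∫ V(t) W'(t) exp(- s t) dt` -/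
  | sum (A B : Fam) (Z W : RatFunc ℂ) (v w : ℂ × ℕ →₀ ℂ) (hv : 1 - Z = RatFunc.X * lap v)
      (hw : 1 - W = RatFunc.X * lap w) (hv0 : ∀ p ∈ v.support, p.1 ≠ 0)
      (hw0 : ∀ p ∈ w.support, p.1 ≠ 0) (hA : TQ At HAt false A Z) (hB : TQ At HAt false B W) :
      TQ At HAt false (A.sum B) (1 - RatFunc.X * lap2 v w)
  /-- the product of two ideals in disjoint sets of variables -/
  | mul (A B : Fam) (Z W : RatFunc ℂ) (hA : TQ At HAt false A Z) (hB : TQ At HAt false B W) :
      TQ At HAt false (A.mul B) (Z * W)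
  /-- the germ of `∑ y_j f_j(x)` has the local topological zeta function `Z / (s + 1)` -/
  | univ (A : Fam) (Z : RatFunc ℂ) (hA : TQ At HAt false A Z) :
      TQ At HAt true (univFam A) (Z * (RatFunc.X + 1)⁻¹)
  /-- the germ of `h(x) ∏_t (∑_j y_{t, j} f_{t, j}(x)) ^ a_t` has the local topological zeta function
  `Z ∏_t 1 / (a_t s + 1)`, if `Z` is the one of the ideal `h ∏_t (f_{t, j})_j ^ a_t` -/
  | form (σ τ : Type) [Fintype τ] [DecidableEq τ] [Nonempty τ] (κ : τ → Type)
      [∀ t, Fintype (κ t)] (a : τ → ℕ) (ha : ∀ t, 0 < a t) (h : MvPolynomial σ ℂ)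
      (f : (t : τ) → κ t → MvPolynomial σ ℂ) (Z : RatFunc ℂ)
      (hA : TQ At HAt false (genFam a h f) Z) :
      TQ At HAt true (formFam a h f) (Z * ∏ t, fac (a t) 1)
  /-- the Thom-Sebastiani sum `∑ y_j f_j(x) + g(z)`, `g(0) = 0`: if
  `1 - Z = s ∫ V(t) exp(- s t) dt` and `1 - (s + 1) W = s ∫ U(t) exp(- s t) dt`, where no constant
  function occurs in the exponential polynomials `V`, `U` (given by `v` and `w`), then
  `1 - (s + 1) Z_F = s ∫ V(t) U(t) exp(- s t) dt` -/
  | ts (A : Fam) (τ : Type) (g : MvPolynomial τ ℂ) (Z W : RatFunc ℂ) (v w : ℂ × ℕ →₀ ℂ)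
      (hv : 1 - Z = RatFunc.X * lap v) (hw : 1 - (RatFunc.X + 1) * W = RatFunc.X * lap w)
      (hv0 : ∀ p ∈ v.support, p.1 ≠ 0) (hw0 : ∀ p ∈ w.support, p.1 ≠ 0)
      (h0 : constantCoeff g = 0)
      (hA : TQ At HAt false A Z) (hg : TQ At HAt true ⟨τ, Fin 1, fun _ => g⟩ W) :
      TQ At HAt true (tsFam A τ g) ((1 - RatFunc.X * lap2 v w) * (RatFunc.X + 1)⁻¹)
  /-- variables which do not occur may be dropped -/
  | drop (σ κ : Type) (g : MvPolynomial σ ℂ) (Z : RatFunc ℂ)
      (h : TQ At HAt true ⟨σ ⊕ κ, Fin 1, fun _ => rename Sum.inl g⟩ Z) :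
      TQ At HAt true ⟨σ, Fin 1, fun _ => g⟩ Z
  /-- the variables and the generators may be indexed differently -/
  | equiv (c : Bool) (A B : Fam) (i : A.σ ≃ B.σ) (k : A.ι ≃ B.ι)
      (h : ∀ j, B.f (k j) = rename i (A.f j)) (Z : RatFunc ℂ) (hA : TQ At HAt c A Z) :
      TQ At HAt c B Z

end Pool.Agent.R852.TL
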