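import Pool.Agent.R852.TL.Main
import Pool.Agent.R852.TP.Fin
import Pool.Agent.Y230.TL.A
import Pool.Agent.Y230.TL.U
import Pool.Agent.Y64.TL.ExpB
import Pool.Agent.Y448.TL.J

set_option autoImplicit false
set_option linter.unusedSectionVars false
set_option linter.unusedVariables false

/-! # Germs: the final statements -/

namespace Pool.Agent.R852.TL

open MvPolynomial Pool.Agent.W574.SM Pool.Agent.W574.CN Pool.Agent.W574.RO Pool.Agent.Y229
open Pool.Agent.W574.MO Pool.Agent.W425.SM Pool.Agent.W425.SV Pool.Agent.W422.GC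
open Pool.Agent.W425.ND Pool.Agent.W574.HS Pool.Agent.TH192.DT Pool.Agent.W574.LM
open Pool.Agent.TH187.SA Pool.Agent.R852.TP
open Pool.Agent.Y228.AT (topZeta_pole)
open Pool.Agent.Y228.RR (FromRees root_of_from)
open Pool.Agent.Y230.RS (topZeta)
open Pool.Agent.Y230.TL (StJ StU StL tA tU StrongHyp WeakHyp strongHyp_cl weakHyp_cl root_of_sf)
open Pool.Agent.H628R4.TP (IsLocalBFunction)

theorem hJ : StJ := Pool.Agent.Y448.TL.tJ tA Pool.Agent.Y64.TL.tB

theorem hU : StU := tU Pool.Agent.Y64.TL.tB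

theorem hL : StL := Pool.Agent.Y475.TL.tL

theorem prod_ne {σ T : Type} [Fintype T] {κ : T → Type} (g : (t : T) → κ t → MvPolynomial σ ℂ)
    (hg : ∀ t, ∃ j, g t j ≠ 0) (a : T → ℕ) :
    ∃ J : (q : Σ t, Fin (a t)) → κ q.1, ∏ q, g q.1 (J q) ≠ 0 := by
  classical
  choose j hj using hg
  exact ⟨fun q => j q.1, Finset.prod_ne_zero_iff.2 fun q _ => hj q.1⟩

theorem sl_at (T : AddSubmonoid ℂ) (A : Fam) (Z : RatFunc ℂ) (h : StrongL A Z) :
    Finite A.σ ∧ (∃ j, A.f j ≠ 0) ∧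
      ∀ s₀ : ℂ, Z.denom.eval s₀ = 0 → ∃ t ∈ T, FoL A (s₀ - t) := by
  classical
  cases h with
  | loc _ _ hfin h =>
    obtain ⟨h1, h2⟩ := strongLocal_poles A Z h
    exact ⟨hfin, h1, fun s hs => ⟨0, T.zero_mem, by rw [sub_zero]; exact h2 s hs⟩⟩
  | rees σ T' J κ g hg a k m χ h =>
    have hfin : Finite σ := Finite.of_fintype σ
    have hne := prod_ne g hg a
    refine ⟨hfin, hne, fun s hs => ?_⟩
    obtain ⟨S', hS', i, hi, h1, h2⟩ := topZeta_pole _ _ χ s hs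
    refine ⟨0, T.zero_mem, ?_⟩
    rw [sub_zero]
    refine sf_of_local _ 0 s (fun H b hb hH => ?_) (exists_fe _ hne)
    have h3 := root_of_from a g b H hb _ _ h1 (h i h1 ⟨S', hS', hi⟩ H (by
      rwa [eval_zero] at hH))
    have hm : ((∑ t, a t * m i t : ℕ) : ℂ) ≠ 0 := by exact_mod_cast h1.ne'
    have e : -((k i + 1 : ℕ) : ℂ) / (∑ t, a t * m i t : ℕ) = s := by
      rw [div_eq_iff hm]
      linear_combination -h2
    rwa [e] at h3
  | arr σ S I κ c hc e G hG χ =>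
    have hfin : Finite σ := Finite.of_fintype σ
    have hne := arrGen_ne c hc e
    refine ⟨hfin, hne, fun s hs => ?_⟩
    obtain ⟨S', hS', i, hi, h1, h2⟩ := topZeta_pole _ _ χ s hs
    refine ⟨0, T.zero_mem, ?_⟩
    rw [sub_zero]
    refine sf_of_local _ 0 s (fun H b hb hH => ?_) (exists_fe _ hne)
    have h3 := arr_roots_one c e b H (by rwa [eval_zero] at hH) hb (G i) (hG i) 0 h1
    have hc := codim_pos (hG i)
    rw [Nat.sub_add_cancel hc] at h2
    have hm : ((mult (fun s => zeros (c s)) e (G i) : ℕ) : ℂ) ≠ 0 := by exact_mod_cast h1.ne'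
    have e1 : -(((Fintype.card σ - Module.finrank ℂ (G i) : ℕ) : ℂ) + ((0 : ℕ) : ℂ)) /
        (mult (fun s => zeros (c s)) e (G i) : ℕ) = s := by
      rw [div_eq_iff hm]
      push_cast
      linear_combination -h2
    rwa [e1] at h3

theorem wl_at (A : Fam) (Z : RatFunc ℂ) (h : WeakL A Z) :
    Finite A.σ ∧ (∃ j, A.f j ≠ 0) ∧
      ∀ s₀ : ℂ, Z.denom.eval s₀ = 0 → ∃ t ∈ natC, FoL A (s₀ - t) := by
  cases h with
  | strong h => exact sl_at natC A Z h
  | weak hfin h =>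
    obtain ⟨h1, h2⟩ := weakLocal_poles A Z h
    refine ⟨hfin, h1, fun s hs => ?_⟩
    obtain ⟨i, hi⟩ := h2 s hs
    exact ⟨i, (mem_natC _).2 ⟨i, rfl⟩, hi⟩

/-- **The strong conjecture at the origin for the hypersurfaces in the class.** -/
theorem tq_strong {σ : Type} (F : MvPolynomial σ ℂ) (Z : RatFunc ℂ)
    (h : TQ StrongL StrongHyp false ⟨σ, Fin 1, fun _ => F⟩ Z) (b : Polynomial ℂ)
    (hb : IsLocalBFunction F b) (s₀ : ℂ) (hs : Z.denom.eval s₀ = 0) : b.eval s₀ = 0 := by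
  have hC := tq_closure hJ hU hL ⊥ bot_div StrongL StrongHyp (fun A Z h => sl_at ⊥ A Z h)
    (strongHyp_cl hL) false _ Z h
  obtain ⟨t, ht, h1⟩ := hC.pole s₀ hs
  rw [AddSubmonoid.mem_bot] at ht
  rw [ht, sub_zero] at h1
  obtain ⟨j, hj⟩ := hC.ne
  exact root_of_sf hC.fin F hj s₀ h1 b hb

/-- **The weak conjecture at the origin for the hypersurfaces in the class.** -/
theorem tq_weak {σ : Type} (F : MvPolynomial σ ℂ) (Z : RatFunc ℂ)
    (h : TQ WeakL WeakHyp false ⟨σ, Fin 1, fun _ => F⟩ Z) (b : Polynomial ℂ)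
    (hb : IsLocalBFunction F b) (s₀ : ℂ) (hs : Z.denom.eval s₀ = 0) :
    ∃ i : ℕ, b.eval (s₀ - i) = 0 := by
  have hC := tq_closure hJ hU hL natC nat_div WeakL WeakHyp wl_at (weakHyp_cl hL) false _ Z h
  obtain ⟨t, ht, h1⟩ := hC.pole s₀ hs
  obtain ⟨i, rfl⟩ := (mem_natC _).1 ht
  obtain ⟨j, hj⟩ := hC.ne
  exact ⟨i, root_of_sf hC.fin F hj _ h1 b hb⟩

end Pool.Agent.R852.TL
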